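import Pool.Agent.H82.NTC.Stmts2

/-!
# Board `ntc`, row RFC: the refined node set has at most seven nodes for every node
-/

set_option autoImplicit false

namespace Pool.NTC

open Pool.NET

namespace RFC31

/-- the seven offsets -/
def F (x : Nd × Fin 7) : Nd :=
  (2 * x.1.1 + (![0, 0, 0, 1, 1, 1, 1] : Fin 7 → ℤ) x.2,
    4 * x.1.2 + (![-1, 0, 1, 0, 1, 2, 3] : Fin 7 → ℤ) x.2)

theorem sub (M : Set Nd) : Rf M ⊆ F '' (M ×ˢ (Set.univ : Set (Fin 7))) := by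
  rintro ⟨x, y⟩ (⟨h1, h2, h3⟩ | ⟨h1, h2⟩)
  · simp only at h1 h2 h3
    have h4 : (y + 1) % 4 = 0 ∨ (y + 1) % 4 = 1 ∨ (y + 1) % 4 = 2 := by omega
    rcases h4 with h4 | h4 | h4
    · refine ⟨((x / 2, (y + 1) / 4), 0), ⟨h3, Set.mem_univ _⟩, Prod.ext ?_ ?_⟩
      · simp [F]; omega
      · simp [F]; omega
    · refine ⟨((x / 2, (y + 1) / 4), 1), ⟨h3, Set.mem_univ _⟩, Prod.ext ?_ ?_⟩
      · simp [F]; omega
      · simp [F]; omega
    · refine ⟨((x / 2, (y + 1) / 4), 2), ⟨h3, Set.mem_univ _⟩, Prod.ext ?_ ?_⟩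
      · simp [F]; omega
      · simp [F]; omega
  · simp only at h1 h2
    have h4 : y % 4 = 0 ∨ y % 4 = 1 ∨ y % 4 = 2 ∨ y % 4 = 3 := by omega
    rcases h4 with h4 | h4 | h4 | h4
    · refine ⟨((x / 2, y / 4), 3), ⟨h2, Set.mem_univ _⟩, Prod.ext ?_ ?_⟩
      · simp [F]; omega
      · simp [F]; omega
    · refine ⟨((x / 2, y / 4), 4), ⟨h2, Set.mem_univ _⟩, Prod.ext ?_ ?_⟩
      · simp [F]; omega
      · simp [F]; omega
    · refine ⟨((x / 2, y / 4), 5), ⟨h2, Set.mem_univ _⟩, Prod.ext ?_ ?_⟩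
      · simp [F]; omega
      · simp [F]; omega
    · refine ⟨((x / 2, y / 4), 6), ⟨h2, Set.mem_univ _⟩, Prod.ext ?_ ?_⟩
      · simp [F]; omega
      · simp [F]; omega

end RFC31

open RFC31 in
theorem rfc_thm : RFC_S := by
  intro M hM
  have hfin : (M ×ˢ (Set.univ : Set (Fin 7))).Finite := hM.prod Set.finite_univ
  calc (Rf M).ncard ≤ (F '' (M ×ˢ (Set.univ : Set (Fin 7)))).ncard :=
        Set.ncard_le_ncard (sub M) (hfin.image F)
    _ ≤ (M ×ˢ (Set.univ : Set (Fin 7))).ncard := Set.ncard_image_le hfin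
    _ = 7 * M.ncard := by
        rw [Set.ncard_prod, Set.ncard_univ, Nat.card_eq_fintype_card, Fintype.card_fin, mul_comm]

end Pool.NTC
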