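import Pool.Agent.H82.NTC.Stmts

/-!
# Board `ntc`, row XAB: crossings of an element with itself, first corner of kind `B`
-/

set_option autoImplicit false

namespace Pool.NTC

open Pool.NET

namespace XAB31

theorem sep (S c c' : ℤ) (hS : 0 ≤ S) :
    S * c' ≤ S * c - 2 * S ∨ (c' = c - 1 ∧ S * c' = S * c - S) ∨ c' = c ∨
      (c' = c + 1 ∧ S * c' = S * c + S) ∨ S * c + 2 * S ≤ S * c' := by
  rcases lt_trichotomy c' c with h | h | h
  · rcases eq_or_lt_of_le (show c' ≤ c - 1 by omega) with h1 | h1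
    · right; left
      exact ⟨h1, by rw [h1]; ring⟩
    · left
      have : S * c' ≤ S * (c - 2) := mul_le_mul_of_nonneg_left (by omega) hS
      linarith [mul_sub S c 2]
  · exact Or.inr (Or.inr (Or.inl h))
  · rcases eq_or_lt_of_le (show c + 1 ≤ c' by omega) with h1 | h1
    · right; right; right; left
      exact ⟨h1.symm, by rw [← h1]; ring⟩
    · right; right; right; right
      have : S * (c + 2) ≤ S * c' := mul_le_mul_of_nonneg_left (by omega) hS
      linarith [mul_add S c 2]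

end XAB31

open XAB31 in
theorem xab_thm : XSA Ke.B := by
  intro p e g N h u hp hN hU v w hv hw h1 h2 h3 h4
  obtain ⟨q0, gq, gW, We, eM, MS⟩ := hp
  obtain ⟨c, r⟩ := v
  obtain ⟨⟨c', r'⟩, k'⟩ := w
  have hS : 0 ≤ p.S := by omega
  have hc := sep p.S c c' hS
  have hr := sep p.S r r' hS
  cases k'
  case R => simp only [nx2, fx, lo, hi] at h1 h2; rcases hc with hc | ⟨hc1, hc⟩ | hc1 | ⟨hc1, hc⟩ | hc <;> (try subst hc1) <;> omega
  case L => simp only [nx2, fx, lo, hi] at h1 h2; rcases hc with hc | ⟨hc1, hc⟩ | hc1 | ⟨hc1, hc⟩ | hc <;> (try subst hc1) <;> omega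
  case J1 => simp only [nx2, fx, lo, hi] at h1 h2; rcases hc with hc | ⟨hc1, hc⟩ | hc1 | ⟨hc1, hc⟩ | hc <;> (try subst hc1) <;> omega
  case J2 => simp only [nx2, fx, lo, hi] at h1 h2; rcases hc with hc | ⟨hc1, hc⟩ | hc1 | ⟨hc1, hc⟩ | hc <;> (try subst hc1) <;> omega
  case J3 => simp only [nx2, fx, lo, hi] at h1 h2; rcases hc with hc | ⟨hc1, hc⟩ | hc1 | ⟨hc1, hc⟩ | hc <;> (try subst hc1) <;> omega
  case J4 => simp only [nx2, fx, lo, hi] at h1 h2; rcases hc with hc | ⟨hc1, hc⟩ | hc1 | ⟨hc1, hc⟩ | hc <;> (try subst hc1) <;> omega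
  all_goals
    simp only [nx2, fx, lo, hi] at h1 h2
    have hcc : c' = c := by
      rcases hc with hc | ⟨hc1, hc⟩ | hc1 | ⟨hc1, hc⟩ | hc <;> first | exact hc1 | (exfalso; omega)
    subst hcc
    have hu1 := hv.2
    by_cases hu : u (c', r') <;> by_cases hu' : u (c', r' - 1) <;>
    simp only [nx2, pv2, fy, jl, jh, mul_add, mul_sub, mul_one, hu, hu', if_true, if_false] at h3 h4 ⊢ <;>
    rcases hr with hr | ⟨hr1, hr⟩ | hr1 | ⟨hr1, hr⟩ | hr <;>
    first
      | (exfalso; omega)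
      | (exfalso; subst hr1; omega)
      | (subst hr1; exact absurd hu' hu1)
      | (exfalso; apply hu1; have hr2 : r - 1 = r' := by omega
         rw [hr2]; exact hu)
      | (subst hr1; exact Or.inl rfl)
      | (subst hr1; exact Or.inr rfl)

end Pool.NTC
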