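import Pool.Agent.H82.NTC.Stmts

/-!
# Board `ntc`, row XAJ3: crossings of an element with itself, first corner of kind `J3`
-/

set_option autoImplicit false

namespace Pool.NTC

open Pool.NET

namespace XAJ331

theorem sep (S c c' : ℤ) (hS : 0 ≤ S) :
    S * c' ≤ S * c - 2 * S ∨ (c' = c - 1 ∧ S * c' = S * c - S) ∨ c' = c ∨
      (c' = c + 1 ∧ S * c' = S * c + S) ∨ S * c + 2 * S ≤ S * c' := by
  rcases lt_trichotomy c' c with h | h | h
  · rcases eq_or_lt_of_le (show c' ≤ c - 1 by omega) with h1 | h1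
    · right; left
      exact ⟨h1, by rw [h1]; ring⟩
    · left
      have : S * c' ≤ S * (c - 2) := mul_le_mul_of_nonneg_left (by omega) hS
      linarith [mul_sub S c 2]
  · exact Or.inr (Or.inr (Or.inl h))
  · rcases eq_or_lt_of_le (show c + 1 ≤ c' by omega) with h1 | h1
    · right; right; right; left
      exact ⟨h1.symm, by rw [← h1]; ring⟩
    · right; right; right; right
      have : S * (c + 2) ≤ S * c' := mul_le_mul_of_nonneg_left (by omega) hS
      linarith [mul_add S c 2]

end XAJ331

open XAJ331 in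
theorem xaj3_thm : XSA Ke.J3 := by
  intro p e g N h u hp hN hU v w hv hw h1 h2 h3 h4
  obtain ⟨q0, gq, gW, We, eM, MS⟩ := hp
  obtain ⟨c, r⟩ := v
  obtain ⟨⟨c', r'⟩, k'⟩ := w
  have hS : 0 ≤ p.S := by omega
  have hc := sep p.S c c' hS
  have hr := sep p.S r r' hS
  have hhi : hi p e g h u ((c, r), Ke.J3) = p.S * c - e + p.q := by
    by_cases huv : u (c, r - 1) <;> simp only [hi, nx2, fx, huv, if_true, if_false]
  rw [hhi] at h2
  cases k'
  case NW =>
    simp only [fx, lo] at h1 h2
    have hc1 : c' = c := by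
      rcases hc with hc | ⟨hc1, hc⟩ | hc1 | ⟨hc1, hc⟩ | hc <;> first | exact hc1 | (exfalso; omega)
    subst hc1
    by_cases hu : u (c', r')
    · simp only [pv2, fy, jl, jh, mul_add, mul_one, hu, if_true] at h3 h4
      have hr1 : r' = r - 1 := by
        rcases hr with hr | ⟨hr1, hr⟩ | hr1 | ⟨hr1, hr⟩ | hr
        · exfalso; omega
        · exact hr1
        · exfalso; subst hr1; omega
        · exfalso; omega
        · exfalso; omega
      subst hr1
      right
      simp only [nx2, hu, if_true]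
    · simp only [pv2, fy, jl, jh, hu, if_false] at h3 h4
      exfalso
      rcases hr with hr | ⟨hr1, hr⟩ | hr1 | ⟨hr1, hr⟩ | hr <;> first | omega | (subst hr1; omega)
  case B =>
    simp only [fx, lo] at h1 h2
    have hc1 : c' = c := by
      rcases hc with hc | ⟨hc1, hc⟩ | hc1 | ⟨hc1, hc⟩ | hc <;> first | exact hc1 | (exfalso; omega)
    subst hc1
    simp only [pv2, fy, jl, jh] at h3 h4
    have hr1 : r' = r := by
      rcases hr with hr | ⟨hr1, hr⟩ | hr1 | ⟨hr1, hr⟩ | hr <;> first | exact hr1 | (exfalso; omega)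
    subst hr1
    right
    have hu : ¬ u (c', r' - 1) := hw.2
    simp only [nx2, hu, if_false]
  case J3 =>
    simp only [fx, lo] at h1 h2
    have hc1 : c' = c := by
      rcases hc with hc | ⟨hc1, hc⟩ | hc1 | ⟨hc1, hc⟩ | hc <;> first | exact hc1 | (exfalso; omega)
    subst hc1
    simp only [fy, jl, jh] at h3 h4
    have hr1 : r' = r := by
      rcases hr with hr | ⟨hr1, hr⟩ | hr1 | ⟨hr1, hr⟩ | hr <;> first | exact hr1 | (exfalso; omega)
    subst hr1
    left
    rfl
  all_goals
    exfalso
    simp only [fx, lo] at h1 h2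
    rcases hc with hc | ⟨hc1, hc⟩ | hc1 | ⟨hc1, hc⟩ | hc <;> first | omega | (subst hc1; omega)

end Pool.NTC
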