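import Pool.Agent.H82.NTC.Stmts

/-!
# Board `ntc`, row XDJ1: crossings of different elements, first corner of kind `J1`
-/

set_option autoImplicit false

namespace Pool.NTC

open Pool.NET

namespace XDJ131

theorem sep (S c c' : ℤ) (hS : 0 ≤ S) :
    S * c' ≤ S * c - 2 * S ∨ (c' = c - 1 ∧ S * c' = S * c - S) ∨ c' = c ∨
      (c' = c + 1 ∧ S * c' = S * c + S) ∨ S * c + 2 * S ≤ S * c' := by
  rcases lt_trichotomy c' c with h | h | h
  · rcases eq_or_lt_of_le (show c' ≤ c - 1 by omega) with h1 | h1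
    · right; left
      exact ⟨h1, by rw [h1]; ring⟩
    · left
      have : S * c' ≤ S * (c - 2) := mul_le_mul_of_nonneg_left (by omega) hS
      linarith [mul_sub S c 2]
  · exact Or.inr (Or.inr (Or.inl h))
  · rcases eq_or_lt_of_le (show c + 1 ≤ c' by omega) with h1 | h1
    · right; right; right; left
      exact ⟨h1.symm, by rw [← h1]; ring⟩
    · right; right; right; right
      have : S * (c + 2) ≤ S * c' := mul_le_mul_of_nonneg_left (by omega) hS
      linarith [mul_add S c 2]

end XDJ131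

open XDJ131 in
theorem xdj1_thm : XDF Ke.J1 := by
  intro p e g e' g' N N' h h' u hp hp' hN hN' hU hU' hcmp v w hv hw h1 h2 h3 h4
  obtain ⟨q0, gq, gW, We, eM, MS⟩ := hp
  obtain ⟨-, gq', gW', We', eM', -⟩ := hp'
  obtain ⟨c, r⟩ := v
  obtain ⟨⟨c', r'⟩, k'⟩ := w
  have hS : 0 ≤ p.S := by omega
  have hc := sep p.S c c' hS
  have hr := sep p.S r r' hS
  exfalso
  have hlo : lo p e g h u ((c, r), Ke.J1) = p.S * c + e - p.q := by
    by_cases huv : u (c, r) <;> simp only [lo, nx2, fx, huv, if_true, if_false]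
  rw [hlo] at h1
  cases k' <;> simp only [fx, hi] at h1 h2 <;>
    rcases hc with hc | ⟨hc1, hc⟩ | hc1 | ⟨hc1, hc⟩ | hc <;> (try omega) <;>
    subst hc1 <;> (try omega) <;>
    by_cases hu : u (c', r') <;> by_cases hu' : u (c', r' - 1) <;>
    simp only [pv2, fy, jl, jh, mul_sub, mul_one, hu', if_true, if_false] at h3 h4 <;>
    rcases hr with hr | ⟨hr1, hr⟩ | hr1 | ⟨hr1, hr⟩ | hr <;>
    first
      | omega
      | (subst hr1; omega)

end Pool.NTC
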